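import Pool.Agent.J6H44.P2.Stm
import Pool.Agent.Q277.LC.Ex
import Pool.Agent.Q151.LC.Tor

/-!
# Near pairs in the plane off few blocked points (GEO2)
-/

set_option autoImplicit false

namespace Pool.Agent.J6H62.P2

open Finset Equiv Matrix Q292.LC
open Pool.Agent.Q151.LC (td_comm td_self td_tri td_eq_zero mem_bal)
open Pool.Agent.J6H44.P2 (dm eg en)

section aux

variable {L : ℕ}

lemma natAbs_cast_le [NeZero L] (j : ℤ) : ((j : ZMod L)).valMinAbs.natAbs ≤ j.natAbs :=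
  ZMod.natAbs_min_of_le_div_two L _ _ (ZMod.coe_valMinAbs _) (ZMod.natAbs_valMinAbs_le _)

lemma sum_two {M : Type} [AddCommMonoid M] {i i' : Fin 2} (h : i ≠ i') (g : Fin 2 → M) :
    ∑ k, g k = g i + g i' := by
  rw [Fin.sum_univ_two]
  have : (i = 0 ∧ i' = 1) ∨ (i = 1 ∧ i' = 0) := by omega
  rcases this with ⟨rfl, rfl⟩ | ⟨rfl, rfl⟩
  · rfl
  · exact add_comm _ _

lemma td_single [NeZero L] (x : Fin 2 → ZMod L) (i : Fin 2) (j : ℤ) :
    td x (x + Pi.single i (j : ZMod L)) ≤ j.natAbs := by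
  obtain ⟨i', hi⟩ : ∃ i' : Fin 2, i ≠ i' := by
    refine ⟨1 - i, ?_⟩
    omega
  unfold td
  rw [sum_two hi]
  have h1 : x i - (x + Pi.single i (j : ZMod L) : Fin 2 → ZMod L) i = -(j : ZMod L) := by
    rw [Pi.add_apply, Pi.single_eq_same]; ring
  have h2 : x i' - (x + Pi.single i (j : ZMod L) : Fin 2 → ZMod L) i' = 0 := by
    rw [Pi.add_apply, Pi.single_eq_of_ne (Ne.symm hi)]; ring
  rw [h1, h2, ZMod.natAbs_valMinAbs_neg, ZMod.valMinAbs_zero]
  have := natAbs_cast_le (L := L) j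
  simpa using this

lemma add_single (p : Fin 2 → ZMod L) (i : Fin 2) (s t : ℤ) :
    p + Pi.single i (s : ZMod L) + Pi.single i (t : ZMod L) = p + Pi.single i ((s + t : ℤ) : ZMod L) := by
  rw [add_assoc, ← Pi.single_add]
  push_cast
  rfl

lemma single_zero' (p : Fin 2 → ZMod L) (i : Fin 2) : p + Pi.single i ((0 : ℤ) : ZMod L) = p := by
  rw [Int.cast_zero, Pi.single_zero, add_zero]

lemma ed_eq (p : Fin 2 → ZMod L) (i : Fin 2) : (ed (p, i)).2 = p + Pi.single i ((1 : ℤ) : ZMod L) := by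
  unfold ed
  funext k
  by_cases h : k = i
  · subst h
    simp
  · simp [Function.update_of_ne h, Pi.single_eq_of_ne h]

/-- local energy -/
noncomputable def El [NeZero L] (S : Finset (Fin 2 → ZMod L)) (R : ℕ) (f : (Fin 2 → ZMod L) → ℝ)
    (x : Fin 2 → ZMod L) : ℝ :=
  ∑ i : (Fin 2 → ZMod L) × Fin 2, if ((ed i).1 ∉ S ∧ (ed i).2 ∉ S) ∧ td x (ed i).1 ≤ R then
    (f (ed i).1 - f (ed i).2) ^ 2 else 0

lemma El_nonneg [NeZero L] (S : Finset (Fin 2 → ZMod L)) (R : ℕ) (f : (Fin 2 → ZMod L) → ℝ)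
    (x : Fin 2 → ZMod L) : 0 ≤ El S R f x := by
  unfold El
  refine Finset.sum_nonneg fun i _ => ?_
  split_ifs
  · exact sq_nonneg _
  · exact le_rfl

lemma edge_le [NeZero L] (S : Finset (Fin 2 → ZMod L)) (R : ℕ) (f : (Fin 2 → ZMod L) → ℝ)
    (x p : Fin 2 → ZMod L) (i : Fin 2) (h1 : p ∉ S) (h2 : p + Pi.single i ((1 : ℤ) : ZMod L) ∉ S)
    (h3 : td x p ≤ R) :
    |f p - f (p + Pi.single i ((1 : ℤ) : ZMod L))| ≤ Real.sqrt (El S R f x) := by
  apply Real.le_sqrt_of_sq_le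
  rw [sq_abs]
  unfold El
  have h4 := ed_eq p i
  have h5 := Finset.single_le_sum (s := univ) (f := fun q : (Fin 2 → ZMod L) × Fin 2 =>
    if ((ed q).1 ∉ S ∧ (ed q).2 ∉ S) ∧ td x (ed q).1 ≤ R then
    (f (ed q).1 - f (ed q).2) ^ 2 else 0) (fun q _ => by
      split_ifs
      · exact sq_nonneg _
      · exact le_rfl) (Finset.mem_univ (p, i))
  rw [h4] at h5
  rw [if_pos ⟨⟨h1, h2⟩, h3⟩] at h5
  exact h5

lemma line_nat [NeZero L] (S : Finset (Fin 2 → ZMod L)) (R : ℕ) (f : (Fin 2 → ZMod L) → ℝ)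
    (x p : Fin 2 → ZMod L) (i : Fin 2) (s : ℤ) (n : ℕ)
    (h : ∀ j : ℤ, s ≤ j → j ≤ s + n → p + Pi.single i ((j : ℤ) : ZMod L) ∉ S ∧
      td x (p + Pi.single i ((j : ℤ) : ZMod L)) ≤ R) :
    |f (p + Pi.single i ((s : ℤ) : ZMod L)) - f (p + Pi.single i ((s + n : ℤ) : ZMod L))| ≤
      n * Real.sqrt (El S R f x) := by
  induction n with
  | zero => simp
  | succ n ih =>
    have h1 := ih (fun j hj1 hj2 => h j hj1 (by push_cast; omega))
    have h2 := h (s + n) (by omega) (by push_cast; omega)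
    have h3 := h (s + n + 1) (by omega) (by push_cast; omega)
    have h4 : p + Pi.single i ((s + n : ℤ) : ZMod L) + Pi.single i ((1 : ℤ) : ZMod L) =
        p + Pi.single i ((s + n + 1 : ℤ) : ZMod L) := add_single _ _ _ _
    have h5 := edge_le S R f x (p + Pi.single i ((s + n : ℤ) : ZMod L)) i h2.1 (by rw [h4]; exact h3.1) h2.2
    rw [h4] at h5
    have h6 : ((s : ℤ) + ((n + 1 : ℕ) : ℤ)) = s + n + 1 := by push_cast; ring
    rw [h6]
    have h7 := abs_sub_le (f (p + Pi.single i ((s : ℤ) : ZMod L)))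
      (f (p + Pi.single i ((s + n : ℤ) : ZMod L))) (f (p + Pi.single i ((s + n + 1 : ℤ) : ZMod L)))
    push_cast at h7 h1 h5 ⊢
    linarith

lemma line_int [NeZero L] (S : Finset (Fin 2 → ZMod L)) (R : ℕ) (f : (Fin 2 → ZMod L) → ℝ)
    (x p : Fin 2 → ZMod L) (i : Fin 2) (s t : ℤ)
    (h : ∀ j : ℤ, min s t ≤ j → j ≤ max s t → p + Pi.single i ((j : ℤ) : ZMod L) ∉ S ∧
      td x (p + Pi.single i ((j : ℤ) : ZMod L)) ≤ R) :
    |f (p + Pi.single i ((s : ℤ) : ZMod L)) - f (p + Pi.single i ((t : ℤ) : ZMod L))| ≤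
      ((t - s).natAbs : ℝ) * Real.sqrt (El S R f x) := by
  rcases le_total s t with hst | hst
  · obtain ⟨n, rfl⟩ : ∃ n : ℕ, t = s + n := ⟨(t - s).toNat, by omega⟩
    have h1 := line_nat S R f x p i s n (fun j h1 h2 => h j (by omega) (by omega))
    have h2 : (s + (n : ℤ) - s).natAbs = n := by omega
    rw [h2]
    exact h1
  · obtain ⟨n, rfl⟩ : ∃ n : ℕ, s = t + n := ⟨(s - t).toNat, by omega⟩
    have h1 := line_nat S R f x p i t n (fun j h1 h2 => h j (by omega) (by omega))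
    have h2 : (t - (t + (n : ℤ))).natAbs = n := by omega
    rw [h2, abs_sub_comm]
    exact h1

lemma decomp [NeZero L] (x y : Fin 2 → ZMod L) {i i' : Fin 2} (h : i ≠ i') :
    ∃ a c : ℤ, y = x + Pi.single i (a : ZMod L) + Pi.single i' (c : ZMod L) ∧
      a.natAbs + c.natAbs = td x y := by
  refine ⟨(y i - x i).valMinAbs, (y i' - x i').valMinAbs, ?_, ?_⟩
  · rw [ZMod.coe_valMinAbs, ZMod.coe_valMinAbs]
    funext k
    have hk : k = i ∨ k = i' := by omega
    rcases hk with rfl | rfl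
    · rw [Pi.add_apply, Pi.add_apply, Pi.single_eq_same, Pi.single_eq_of_ne h]
      ring
    · rw [Pi.add_apply, Pi.add_apply, Pi.single_eq_same, Pi.single_eq_of_ne (Ne.symm h)]
      ring
  · unfold td
    rw [sum_two h]
    congr 1
    · rw [← neg_sub (x i) (y i), ZMod.natAbs_valMinAbs_neg]
    · rw [← neg_sub (x i') (y i'), ZMod.natAbs_valMinAbs_neg]

lemma td_two [NeZero L] (x : Fin 2 → ZMod L) (i i' : Fin 2) (j k : ℤ) :
    td x (x + Pi.single i (j : ZMod L) + Pi.single i' (k : ZMod L)) ≤ j.natAbs + k.natAbs := by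
  have h1 := td_tri x (x + Pi.single i (j : ZMod L))
    (x + Pi.single i (j : ZMod L) + Pi.single i' (k : ZMod L))
  have h2 := td_single x i j
  have h3 := td_single (x + Pi.single i (j : ZMod L)) i' k
  omega

lemma not_dm [NeZero L] {W : ℕ} {S : Finset (Fin 2 → ZMod L)} {x : Fin 2 → ZMod L}
    (hx : x ∉ dm W S) : ∃ i : Fin 2, ∀ j : ℤ, |j| ≤ (W : ℤ) → x + Pi.single i (j : ZMod L) ∉ S := by
  classical
  by_contra hcon
  push Not at hcon
  apply hx
  unfold dm
  rw [Finset.mem_filter]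
  refine ⟨Finset.mem_univ _, fun i => ?_⟩
  obtain ⟨j, hj1, hj2⟩ := hcon i
  exact ⟨j, hj1, hj2⟩

lemma free_col [NeZero L] {S : Finset (Fin 2 → ZMod L)} {W b : ℕ} (hL : 4 * W + 1 ≤ L)
    (hb : ∀ v, (S ∩ bal v (4 * W)).card ≤ b) (hW : b + 1 ≤ W) (x : Fin 2 → ZMod L)
    {i i' : Fin 2} (h : i ≠ i') :
    ∃ j : ℕ, j ≤ b ∧ ∀ k : ℤ, |k| ≤ (W : ℤ) →
      x + Pi.single i ((j : ℤ) : ZMod L) + Pi.single i' (k : ZMod L) ∉ S := by
  by_contra hcon
  push Not at hcon
  have hcon' : ∀ j : ℕ, ∃ k : ℤ, j ≤ b → |k| ≤ (W : ℤ) ∧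
      x + Pi.single i ((j : ℤ) : ZMod L) + Pi.single i' (k : ZMod L) ∈ S := by
    intro j
    by_cases hj : j ≤ b
    · obtain ⟨k, hk⟩ := hcon j hj
      exact ⟨k, fun _ => hk⟩
    · exact ⟨0, fun h' => absurd h' hj⟩
  choose g hg using hcon'
  have h1 : (Finset.range (b + 1)).card ≤ (S ∩ bal x (4 * W)).card := by
    apply Finset.card_le_card_of_injOn
      (fun j : ℕ => x + Pi.single i ((j : ℤ) : ZMod L) + Pi.single i' (g j : ZMod L))
    · intro j hj
      have hj' : j ≤ b := by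
        have := Finset.mem_range.1 (Finset.mem_coe.1 hj)
        omega
      obtain ⟨h2, h3⟩ := hg j hj'
      rw [Finset.mem_coe, Finset.mem_inter, mem_bal]
      refine ⟨h3, ?_⟩
      have h4 := td_two x i i' (j : ℤ) (g j)
      rw [abs_le] at h2
      show td x (x + Pi.single i ((j : ℤ) : ZMod L) + Pi.single i' (g j : ZMod L)) ≤ 4 * W
      omega
    · intro j hj j' hj' hjj
      have e1 : j < b + 1 := Finset.mem_range.1 (Finset.mem_coe.1 hj)
      have e2 : j' < b + 1 := Finset.mem_range.1 (Finset.mem_coe.1 hj')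
      have h2 := congrFun hjj i
      simp only [Pi.add_apply, Pi.single_eq_same, Pi.single_eq_of_ne h, add_zero, Int.cast_natCast]
        at h2
      have h3 : ((j : ℕ) : ZMod L) = ((j' : ℕ) : ZMod L) := add_left_cancel h2
      rw [ZMod.natCast_eq_natCast_iff'] at h3
      rwa [Nat.mod_eq_of_lt (by omega), Nat.mod_eq_of_lt (by omega)] at h3
  rw [Finset.card_range] at h1
  have h2 := hb x
  omega

lemma pair_le [NeZero L] {S : Finset (Fin 2 → ZMod L)} {W b r : ℕ} (hL : 4 * W + 1 ≤ L)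
    (hb : ∀ v, (S ∩ bal v (4 * W)).card ≤ b) (hW : b + 4 * r + 1 ≤ W)
    (f : (Fin 2 → ZMod L) → ℝ) {x y : Fin 2 → ZMod L} (hx : x ∉ dm W S) (hy : y ∉ dm W S)
    (hxy : td x y ≤ 4 * r) :
    |f x - f y| ≤ 3 * W * Real.sqrt (El S (3 * W) f x) := by
  obtain ⟨i, hi⟩ := not_dm hx
  obtain ⟨i2, hi2⟩ := not_dm hy
  have hE := Real.sqrt_nonneg (El S (3 * W) f x)
  set E := Real.sqrt (El S (3 * W) f x) with hEdef
  by_cases hii : i2 = i
  · subst hii
    obtain ⟨i', h⟩ : ∃ i' : Fin 2, i2 ≠ i' := ⟨1 - i2, by omega⟩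
    obtain ⟨a, c, hac, hac2⟩ := decomp x y h
    obtain ⟨j, hj, hj2⟩ := free_col hL hb (by omega) x h
    have e1 := line_int S (3 * W) f x x i2 0 (j : ℤ) (fun k h1 h2 => by
      have h3 := td_single x i2 k
      exact ⟨hi k (by rw [abs_le]; omega), by omega⟩)
    have e2 := line_int S (3 * W) f x (x + Pi.single i2 ((j : ℤ) : ZMod L)) i' 0 c (fun k h1 h2 => by
      have h3 := td_two x i2 i' (j : ℤ) k
      exact ⟨hj2 k (by rw [abs_le]; omega), by omega⟩)
    have e3 := line_int S (3 * W) f x y i2 ((j : ℤ) - a) 0 (fun k h1 h2 => by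
      have h3 := td_single y i2 k
      have h4 := td_tri x y (y + Pi.single i2 (k : ZMod L))
      exact ⟨hi2 k (by rw [abs_le]; omega), by omega⟩)
    rw [single_zero'] at e1 e2 e3
    have e4 : x + Pi.single i2 ((j : ℤ) : ZMod L) + Pi.single i' (c : ZMod L) =
        y + Pi.single i2 (((j : ℤ) - a : ℤ) : ZMod L) := by
      rw [hac]
      push_cast
      rw [Pi.single_sub]
      abel
    rw [e4] at e2
    have t1 := abs_sub_le (f x) (f (x + Pi.single i2 ((j : ℤ) : ZMod L))) (f y)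
    have t2 := abs_sub_le (f (x + Pi.single i2 ((j : ℤ) : ZMod L)))
      (f (y + Pi.single i2 (((j : ℤ) - a : ℤ) : ZMod L))) (f y)
    have hn : ((j : ℤ) - 0).natAbs + (c - 0).natAbs + (0 - ((j : ℤ) - a)).natAbs ≤ 3 * W := by
      omega
    have hn' : ((((j : ℤ) - 0).natAbs : ℕ) : ℝ) + (((c - 0).natAbs : ℕ) : ℝ) +
        (((0 - ((j : ℤ) - a)).natAbs : ℕ) : ℝ) ≤ 3 * W := by exact_mod_cast hn
    calc |f x - f y| ≤ ((((j : ℤ) - 0).natAbs : ℕ) : ℝ) * E + (((c - 0).natAbs : ℕ) : ℝ) * E +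
        (((0 - ((j : ℤ) - a)).natAbs : ℕ) : ℝ) * E := by linarith
      _ = (((((j : ℤ) - 0).natAbs : ℕ) : ℝ) + (((c - 0).natAbs : ℕ) : ℝ) +
        (((0 - ((j : ℤ) - a)).natAbs : ℕ) : ℝ)) * E := by ring
      _ ≤ 3 * W * E := mul_le_mul_of_nonneg_right hn' hE
  · have h : i ≠ i2 := fun h' => hii h'.symm
    obtain ⟨a, c, hac, hac2⟩ := decomp x y h
    have e1 := line_int S (3 * W) f x x i 0 a (fun k h1 h2 => by
      have h3 := td_single x i k
      exact ⟨hi k (by rw [abs_le]; omega), by omega⟩)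
    have e3 := line_int S (3 * W) f x y i2 (-c) 0 (fun k h1 h2 => by
      have h3 := td_single y i2 k
      have h4 := td_tri x y (y + Pi.single i2 (k : ZMod L))
      exact ⟨hi2 k (by rw [abs_le]; omega), by omega⟩)
    rw [single_zero'] at e1 e3
    have e4 : x + Pi.single i (a : ZMod L) = y + Pi.single i2 (((-c : ℤ)) : ZMod L) := by
      rw [hac]
      push_cast
      rw [Pi.single_neg]
      abel
    rw [e4] at e1
    have t1 := abs_sub_le (f x) (f (y + Pi.single i2 (((-c : ℤ)) : ZMod L))) (f y)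
    have hn : (a - 0).natAbs + (0 - (-c)).natAbs ≤ 3 * W := by
      omega
    have hn' : (((a - 0).natAbs : ℕ) : ℝ) + (((0 - (-c)).natAbs : ℕ) : ℝ) ≤ 3 * W := by
      exact_mod_cast hn
    calc |f x - f y| ≤ (((a - 0).natAbs : ℕ) : ℝ) * E + (((0 - (-c)).natAbs : ℕ) : ℝ) * E := by
          linarith
      _ = ((((a - 0).natAbs : ℕ) : ℝ) + (((0 - (-c)).natAbs : ℕ) : ℝ)) * E := by ring
      _ ≤ 3 * W * E := mul_le_mul_of_nonneg_right hn' hE

lemma sum_El [NeZero L] (S : Finset (Fin 2 → ZMod L)) {W : ℕ} (hW : 1 ≤ W)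
    (f : (Fin 2 → ZMod L) → ℝ) : ∑ x, El S (3 * W) f x ≤ (7 * W) ^ 2 * eg S f := by
  unfold El eg
  rw [Finset.sum_comm, Finset.mul_sum]
  refine Finset.sum_le_sum fun q _ => ?_
  by_cases hq : (ed q).1 ∉ S ∧ (ed q).2 ∉ S
  · rw [if_pos hq]
    have h1 : ∀ x : Fin 2 → ZMod L, (if ((ed q).1 ∉ S ∧ (ed q).2 ∉ S) ∧ td x (ed q).1 ≤ 3 * W then
        (f (ed q).1 - f (ed q).2) ^ 2 else 0) =
        if x ∈ bal (ed q).1 (3 * W) then (f (ed q).1 - f (ed q).2) ^ 2 else 0 := by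
      intro x
      by_cases hx : td x (ed q).1 ≤ 3 * W
      · rw [if_pos ⟨hq, hx⟩, if_pos (by rw [mem_bal, td_comm]; exact hx)]
      · rw [if_neg (fun h => hx h.2), if_neg (by rw [mem_bal, td_comm]; exact hx)]
    rw [Finset.sum_congr rfl fun x _ => h1 x, Finset.sum_ite_mem, Finset.univ_inter,
      Finset.sum_const, nsmul_eq_mul]
    apply mul_le_mul_of_nonneg_right _ (sq_nonneg _)
    have h2 := Pool.Agent.Q277.LC.card_bal_le (ed q).1 (3 * W)
    have h3 : (2 * (3 * W) + 1) ^ 2 ≤ (7 * W) ^ 2 := Nat.pow_le_pow_left (by omega) 2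
    exact_mod_cast h2.trans h3
  · rw [if_neg hq]
    rw [mul_zero]
    refine le_of_eq (Finset.sum_eq_zero fun x _ => ?_)
    rw [if_neg (fun h => hq h.1)]

end aux

open Classical in
/-- GEO2 -/
theorem geo2 : Pool.Agent.J6H44.P2.S_GEO2 := by
  intro d L _ hd hL3 S W b r hr hb hW hL4
  subst hd
  refine ⟨?_, ?_, ?_⟩
  · intro x hx
    unfold dm
    rw [Finset.mem_filter]
    refine ⟨Finset.mem_univ _, fun i => ⟨0, by simp, ?_⟩⟩
    rw [single_zero']
    exact hx
  · intro v R b' hb'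
    have hsub : dm W S ∩ bal v R ⊆ ((S ∩ bal v (R + W)) ×ˢ (S ∩ bal v (R + W))).image
        (fun p : (Fin 2 → ZMod L) × (Fin 2 → ZMod L) => ![p.2 0, p.1 1]) := by
      intro x hx
      rw [Finset.mem_inter] at hx
      obtain ⟨hx1, hx2⟩ := hx
      rw [mem_bal] at hx2
      unfold dm at hx1
      rw [Finset.mem_filter] at hx1
      obtain ⟨j, hj1, hj2⟩ := hx1.2 0
      obtain ⟨k, hk1, hk2⟩ := hx1.2 1
      rw [Finset.mem_image]
      refine ⟨(x + Pi.single 0 (j : ZMod L), x + Pi.single 1 (k : ZMod L)), ?_, ?_⟩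
      · rw [Finset.mem_product]
        constructor
        · rw [Finset.mem_inter, mem_bal]
          refine ⟨hj2, ?_⟩
          show td v (x + Pi.single 0 (j : ZMod L)) ≤ R + W
          have h1 := td_single x 0 j
          have h2 := td_tri v x (x + Pi.single 0 (j : ZMod L))
          rw [abs_le] at hj1
          omega
        · rw [Finset.mem_inter, mem_bal]
          refine ⟨hk2, ?_⟩
          show td v (x + Pi.single 1 (k : ZMod L)) ≤ R + W
          have h1 := td_single x 1 k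
          have h2 := td_tri v x (x + Pi.single 1 (k : ZMod L))
          rw [abs_le] at hk1
          omega
      · funext i
        have hi : i = 0 ∨ i = 1 := by
          revert i
          decide
        rcases hi with rfl | rfl
        · simp
        · simp
    calc (dm W S ∩ bal v R).card ≤ _ := Finset.card_le_card hsub
      _ ≤ ((S ∩ bal v (R + W)) ×ˢ (S ∩ bal v (R + W))).card := Finset.card_image_le
      _ = (S ∩ bal v (R + W)).card * (S ∩ bal v (R + W)).card := Finset.card_product _ _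
      _ ≤ b' ^ 2 := by rw [sq]; exact Nat.mul_le_mul hb' hb'
  · intro f
    have hW1 : 1 ≤ W := by omega
    have key : ∀ x : Fin 2 → ZMod L, ∑ y, (if x ∉ dm W S ∧ y ∉ dm W S ∧ td x y ≤ 2 * 2 * r then
        (f x - f y) ^ 2 else 0) ≤ (3 * W : ℝ) ^ 2 * ((3 * W : ℝ) ^ 2 * El S (3 * W) f x) := by
      intro x
      have hE0 := El_nonneg S (3 * W) f x
      have h1 : ∀ y ∈ (Finset.univ : Finset (Fin 2 → ZMod L)),
          (if x ∉ dm W S ∧ y ∉ dm W S ∧ td x y ≤ 2 * 2 * r then (f x - f y) ^ 2 else 0) ≤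
          if y ∈ bal x (4 * r) then (3 * W : ℝ) ^ 2 * El S (3 * W) f x else 0 := by
        intro y _
        by_cases hc : x ∉ dm W S ∧ y ∉ dm W S ∧ td x y ≤ 2 * 2 * r
        · rw [if_pos hc, if_pos (by rw [mem_bal]; omega)]
          have h2 := pair_le hL4 hb hW f hc.1 hc.2.1 (by omega)
          have h3 : (f x - f y) ^ 2 ≤ (3 * W * Real.sqrt (El S (3 * W) f x)) ^ 2 := by
            rw [← sq_abs (f x - f y)]
            exact pow_le_pow_left₀ (abs_nonneg _) h2 2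
          rw [mul_pow, Real.sq_sqrt hE0] at h3
          exact h3
        · rw [if_neg hc]
          split_ifs
          · positivity
          · exact le_rfl
      refine (Finset.sum_le_sum h1).trans ?_
      rw [Finset.sum_ite_mem, Finset.univ_inter, Finset.sum_const, nsmul_eq_mul]
      apply mul_le_mul_of_nonneg_right _ (by positivity)
      have h2 := Pool.Agent.Q277.LC.card_bal_le x (4 * r)
      have h3 : (2 * (4 * r) + 1) ^ 2 ≤ (3 * W) ^ 2 := Nat.pow_le_pow_left (by omega) 2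
      exact_mod_cast h2.trans h3
    have h4 := sum_El S hW1 f
    have h5 : en r (dm W S) f ≤ ∑ x, (3 * W : ℝ) ^ 2 * ((3 * W : ℝ) ^ 2 * El S (3 * W) f x) := by
      unfold en
      exact Finset.sum_le_sum fun x _ => key x
    have h6 : 0 ≤ eg S f := by
      unfold eg
      refine Finset.sum_nonneg fun i _ => ?_
      split_ifs
      · exact sq_nonneg _
      · exact le_rfl
    rw [← Finset.mul_sum, ← Finset.mul_sum] at h5
    calc en r (dm W S) f ≤ (3 * W : ℝ) ^ 2 * ((3 * W : ℝ) ^ 2 * ∑ x, El S (3 * W) f x) := h5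
      _ ≤ (3 * W : ℝ) ^ 2 * ((3 * W : ℝ) ^ 2 * ((7 * W) ^ 2 * eg S f)) := by gcongr
      _ = 3969 * ((W : ℝ) ^ 6 * eg S f) := by ring
      _ ≤ 4000 * ((W : ℝ) ^ 6 * eg S f) := by
          apply mul_le_mul_of_nonneg_right (by norm_num) (by positivity)
      _ = 4000 * (W : ℝ) ^ 6 * eg S f := by ring

end Pool.Agent.J6H62.P2
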